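import Mathlib

/-!
# Distinct bracketings of iterated BKR products

For every set `S` with at least two elements and every `r ≥ 3` we construct sets
`A_1, …, A_r ⊆ S^d`, with `d = 3 * (r choose 3)`, such that the `catalan (r - 1)`
binary-associated BKR products of the word `A_1 A_2 ⋯ A_r` are pairwise distinct.

The idea: the BKR product of product sets is the product of the BKR products, the full space
is neutral, and a plane binary tree is determined by its restrictions to triples of leaves.
So it is enough to put, in one block of three coordinates for each triple `i < j < k`, a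
nondegenerate example of nonassociativity for three factors.
-/

namespace Pool.Agent.Results.MP_890654_pr.DistinctBracketings

universe u v w

/-- The cylinder `[x]_K`: all points which agree with `x` on the coordinates in `K`. -/
def cyl {ι : Type u} {S : Type v} (x : ι → S) (K : Set ι) : Set (ι → S) :=
  {y | ∀ i ∈ K, y i = x i}

/-- The binary BKR product (disjoint occurrence) `A □ B`. -/
def box {ι : Type u} {S : Type v} (A B : Set (ι → S)) : Set (ι → S) :=
  {x | ∃ K L : Set ι, Disjoint K L ∧ cyl x K ⊆ A ∧ cyl x L ⊆ B}

/-- The underlying word of a fully parenthesised word: its letters from left to right. -/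
def word {α : Type w} : FreeMagma α → List α
  | .of a => [a]
  | .mul x y => word x ++ word y

/-- The value of a fully parenthesised word in the letters `a : α`, when the letter `a` stands
for the set `A a` and every multiplication is the BKR product. -/
def value {α : Type w} {ι : Type u} {S : Type v} (A : α → Set (ι → S)) :
    FreeMagma α → Set (ι → S)
  | .of a => A a
  | .mul x y => box (value A x) (value A y)

section basic

variable {ι : Type u} {S : Type v}

theorem self_mem_cyl (x : ι → S) (K : Set ι) : x ∈ cyl x K := fun _ _ => rfl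

theorem cyl_anti (x : ι → S) {K L : Set ι} (h : K ⊆ L) : cyl x L ⊆ cyl x K :=
  fun _ hy i hi => hy i (h hi)

theorem box_comm (A B : Set (ι → S)) : box A B = box B A := by
  ext x
  constructor
  · rintro ⟨K, L, h, hA, hB⟩
    exact ⟨L, K, h.symm, hB, hA⟩
  · rintro ⟨K, L, h, hA, hB⟩
    exact ⟨L, K, h.symm, hB, hA⟩

theorem box_univ (A : Set (ι → S)) : box A Set.univ = A := by
  ext x
  constructor
  · rintro ⟨K, L, _, hA, _⟩
    exact hA (self_mem_cyl x K)
  · intro hx
    refine ⟨Set.univ, ∅, by simp, ?_, Set.subset_univ _⟩
    intro y hy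
    have : y = x := funext fun i => hy i (Set.mem_univ i)
    rwa [this]

theorem univ_box (A : Set (ι → S)) : box Set.univ A = A := by
  rw [box_comm, box_univ]

end basic

section words

variable {α : Type w}

theorem word_ne_nil (T : FreeMagma α) : word T ≠ [] := by
  induction T using FreeMagma.rec with
  | of a => simp [word]
  | mul x y hx hy => simp [word, hx]

end words

section values

variable {α : Type w} {ι : Type u} {S : Type v}

theorem value_univ (F : α → Set (ι → S)) (T : FreeMagma α)
    (h : ∀ a ∈ word T, F a = Set.univ) : value F T = Set.univ := by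
  induction T using FreeMagma.rec with
  | of a => exact h a (by simp [word])
  | mul x y hx hy =>
    have h1 := hx (fun a ha => h a (by simp [word, ha]))
    have h2 := hy (fun a ha => h a (by simp [word, ha]))
    simp only [value, h1, h2, box_univ]

theorem value_single (F : α → Set (ι → S)) (T : FreeMagma α) (hn : (word T).Nodup) (i : α)
    (hi : i ∈ word T) (h : ∀ a ∈ word T, a ≠ i → F a = Set.univ) : value F T = F i := by
  induction T using FreeMagma.rec with
  | of a =>
    have : i = a := by simpa [word] using hi
    subst this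
    rfl
  | mul x y hx hy =>
    have hn' : (word x ++ word y).Nodup := hn
    have hdis : List.Disjoint (word x) (word y) := (List.nodup_append'.1 hn').2.2
    have hnx : (word x).Nodup := (List.nodup_append'.1 hn').1
    have hny : (word y).Nodup := (List.nodup_append'.1 hn').2.1
    have hi' : i ∈ word x ++ word y := hi
    rcases List.mem_append.1 hi' with hix | hiy
    · have h1 := hx hnx hix (fun a ha hne => h a (by simp [word, ha]) hne)
      have h2 : value F y = Set.univ := value_univ F y (fun a ha => h a (by simp [word, ha])
        (fun hai => hdis hix (hai ▸ ha)))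
      simp only [value, h1, h2, box_univ]
    · have h1 := hy hny hiy (fun a ha hne => h a (by simp [word, ha]) hne)
      have h2 : value F x = Set.univ := value_univ F x (fun a ha => h a (by simp [word, ha])
        (fun hai => hdis (hai ▸ ha) hiy))
      simp only [value, h1, h2, univ_box]

theorem value_pair (F : α → Set (ι → S)) (T : FreeMagma α) (hn : (word T).Nodup) (i j : α)
    (hij : i ≠ j) (hi : i ∈ word T) (hj : j ∈ word T)
    (h : ∀ a ∈ word T, a ≠ i → a ≠ j → F a = Set.univ) :
    value F T = box (F i) (F j) := by
  induction T using FreeMagma.rec with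
  | of a =>
    have h1 : i = a := by simpa [word] using hi
    have h2 : j = a := by simpa [word] using hj
    exact absurd (h1.trans h2.symm) hij
  | mul x y hx hy =>
    have hn' : (word x ++ word y).Nodup := hn
    have hdis : List.Disjoint (word x) (word y) := (List.nodup_append'.1 hn').2.2
    have hnx : (word x).Nodup := (List.nodup_append'.1 hn').1
    have hny : (word y).Nodup := (List.nodup_append'.1 hn').2.1
    have hi' : i ∈ word x ++ word y := hi
    have hj' : j ∈ word x ++ word y := hj
    rcases List.mem_append.1 hi' with hix | hiy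
    · rcases List.mem_append.1 hj' with hjx | hjy
      · have h1 := hx hnx hix hjx (fun a ha => h a (by simp [word, ha]))
        have h2 : value F y = Set.univ := value_univ F y (fun a ha => h a (by simp [word, ha])
          (fun hai => hdis hix (hai ▸ ha)) (fun haj => hdis hjx (haj ▸ ha)))
        simp only [value, h1, h2, box_univ]
      · have h1 : value F x = F i := value_single F x hnx i hix
          (fun a ha hne => h a (by simp [word, ha]) hne (fun haj => hdis ha (haj ▸ hjy)))
        have h2 : value F y = F j := value_single F y hny j hjy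
          (fun a ha hne => h a (by simp [word, ha]) (fun hai => hdis (hai ▸ hix) ha) hne)
        simp only [value, h1, h2]
    · rcases List.mem_append.1 hj' with hjx | hjy
      · have h1 : value F x = F j := value_single F x hnx j hjx
          (fun a ha hne => h a (by simp [word, ha]) (fun hai => hdis ha (hai ▸ hiy)) hne)
        have h2 : value F y = F i := value_single F y hny i hiy
          (fun a ha hne => h a (by simp [word, ha]) hne (fun haj => hdis (haj ▸ hjx) ha))
        simp only [value, h1, h2]
        exact box_comm _ _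
      · have h1 := hy hny hiy hjy (fun a ha => h a (by simp [word, ha]))
        have h2 : value F x = Set.univ := value_univ F x (fun a ha => h a (by simp [word, ha])
          (fun hai => hdis (hai ▸ ha) hiy) (fun haj => hdis (haj ▸ ha) hjy))
        simp only [value, h1, h2, univ_box]

/-- If the left part of `L₂ R₂` is strictly longer than that of `L₁ R₁`, then the two
bracketings are told apart by one triple of letters. -/
theorem split_triple (L₁ R₁ L₂ R₂ : FreeMagma α) (t : List α) (ht : t ≠ [])
    (hL : word L₂ = word L₁ ++ t) (hR : word R₁ = t ++ word R₂)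
    (hn : (word L₁ ++ word R₁).Nodup) :
    ∃ i j k, [i, j, k].Sublist (word L₁ ++ word R₁) ∧
      ∀ F : α → Set (ι → S), (∀ a, a ≠ i → a ≠ j → a ≠ k → F a = Set.univ) →
        value F (.mul L₁ R₁) = box (F i) (box (F j) (F k)) ∧
        value F (.mul L₂ R₂) = box (box (F i) (F j)) (F k) := by
  obtain ⟨i, l, hi⟩ := List.exists_cons_of_ne_nil (word_ne_nil L₁)
  obtain ⟨j, m, hj⟩ := List.exists_cons_of_ne_nil ht
  obtain ⟨k, n, hk⟩ := List.exists_cons_of_ne_nil (word_ne_nil R₂)
  have hword : word L₁ ++ word R₁ = i :: l ++ (j :: m ++ k :: n) := by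
    rw [hR, hi, hj, hk]
  have hiL₁ : i ∈ word L₁ := by simp [hi]
  have hjR₁ : j ∈ word R₁ := by simp [hR, hj]
  have hkR₁ : k ∈ word R₁ := by simp [hR, hk]
  have hiL₂ : i ∈ word L₂ := by simp [hL, hi]
  have hjL₂ : j ∈ word L₂ := by simp [hL, hj]
  have hkR₂ : k ∈ word R₂ := by simp [hk]
  have hn1 := List.nodup_append'.1 hn
  have hnL₁ := hn1.1
  have hnR₁ := hn1.2.1
  have hd1 : List.Disjoint (word L₁) (word R₁) := hn1.2.2
  have hn2 : (word L₂ ++ word R₂).Nodup := by
    have : word L₂ ++ word R₂ = word L₁ ++ word R₁ := by rw [hL, hR, List.append_assoc]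
    rw [this]; exact hn
  have hn2' := List.nodup_append'.1 hn2
  have hnL₂ := hn2'.1
  have hnR₂ := hn2'.2.1
  have hd2 : List.Disjoint (word L₂) (word R₂) := hn2'.2.2
  have hij : i ≠ j := fun e => hd1 hiL₁ (e ▸ hjR₁)
  have hik : i ≠ k := fun e => hd1 hiL₁ (e ▸ hkR₁)
  have hjk : j ≠ k := fun e => hd2 hjL₂ (e ▸ hkR₂)
  refine ⟨i, j, k, ?_, ?_⟩
  · rw [hword]
    have h1 : [i].Sublist (i :: l) := by simp
    have h2 : [j].Sublist (j :: m) := by simp
    have h3 : [k].Sublist (k :: n) := by simp
    simpa using h1.append (h2.append h3)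
  · intro F hF
    constructor
    · have e1 : value F L₁ = F i := value_single F L₁ hnL₁ i hiL₁
        (fun a ha hne => hF a hne (fun e => hd1 ha (e ▸ hjR₁)) (fun e => hd1 ha (e ▸ hkR₁)))
      have e2 : value F R₁ = box (F j) (F k) := value_pair F R₁ hnR₁ j k hjk hjR₁ hkR₁
        (fun a ha h2 h3 => hF a (fun e => hd1 (e ▸ hiL₁) ha) h2 h3)
      simp only [value, e1, e2]
    · have e1 : value F L₂ = box (F i) (F j) := value_pair F L₂ hnL₂ i j hij hiL₂ hjL₂
        (fun a ha h2 h3 => hF a h2 h3 (fun e => hd2 ha (e ▸ hkR₂)))
      have e2 : value F R₂ = F k := value_single F R₂ hnR₂ k hkR₂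
        (fun a ha hne => hF a (fun e => hd2 (e ▸ hiL₂) ha) (fun e => hd2 (e ▸ hjL₂) ha) hne)
      simp only [value, e1, e2]

/-- Two different bracketings of the same word (with distinct letters) are told apart by one
triple of letters. -/
theorem exists_triple (T₁ T₂ : FreeMagma α) (hw : word T₁ = word T₂) (hn : (word T₁).Nodup)
    (hne : T₁ ≠ T₂) :
    ∃ i j k, [i, j, k].Sublist (word T₁) ∧
      ∀ F : α → Set (ι → S), (∀ a, a ≠ i → a ≠ j → a ≠ k → F a = Set.univ) →
        (value F T₁ = box (F i) (box (F j) (F k)) ∧
          value F T₂ = box (box (F i) (F j)) (F k)) ∨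
        (value F T₁ = box (box (F i) (F j)) (F k) ∧
          value F T₂ = box (F i) (box (F j) (F k))) := by
  induction T₁ using FreeMagma.rec generalizing T₂ with
  | of a =>
    cases T₂ with
    | of b =>
      have : a = b := by simpa [word] using hw
      exact absurd (by rw [this]) hne
    | mul x y =>
      have h1 := congrArg List.length hw
      have h2 := List.length_pos_of_ne_nil (word_ne_nil x)
      have h3 := List.length_pos_of_ne_nil (word_ne_nil y)
      simp only [word, List.length_append, List.length_singleton] at h1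
      omega
  | mul L₁ R₁ ihL ihR =>
    cases T₂ with
    | of b =>
      have h1 := congrArg List.length hw
      have h2 := List.length_pos_of_ne_nil (word_ne_nil L₁)
      have h3 := List.length_pos_of_ne_nil (word_ne_nil R₁)
      simp only [word, List.length_append, List.length_singleton] at h1
      omega
    | mul L₂ R₂ =>
      have hw' : word L₁ ++ word R₁ = word L₂ ++ word R₂ := hw
      have hn' : (word L₁ ++ word R₁).Nodup := hn
      have hn1 := List.nodup_append'.1 hn'
      have key : ∀ F : α → Set (ι → S), ∀ i j k : α, i ∈ word L₁ → j ∈ word L₁ → k ∈ word L₁ →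
          (∀ a, a ≠ i → a ≠ j → a ≠ k → F a = Set.univ) → word L₁ = word L₂ →
          word R₁ = word R₂ → value F R₁ = Set.univ ∧ value F R₂ = Set.univ := by
        intro F i j k hi hj hk hF e1 e2
        have h0 : ∀ a ∈ word R₁, F a = Set.univ := fun a ha =>
          hF a (fun e => hn1.2.2 (e ▸ hi) ha) (fun e => hn1.2.2 (e ▸ hj) ha)
            (fun e => hn1.2.2 (e ▸ hk) ha)
        exact ⟨value_univ F R₁ h0, value_univ F R₂ (fun a ha => h0 a (e2 ▸ ha))⟩
      have key' : ∀ F : α → Set (ι → S), ∀ i j k : α, i ∈ word R₁ → j ∈ word R₁ → k ∈ word R₁ →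
          (∀ a, a ≠ i → a ≠ j → a ≠ k → F a = Set.univ) → word L₁ = word L₂ →
          word R₁ = word R₂ → value F L₁ = Set.univ ∧ value F L₂ = Set.univ := by
        intro F i j k hi hj hk hF e1 e2
        have h0 : ∀ a ∈ word L₁, F a = Set.univ := fun a ha =>
          hF a (fun e => hn1.2.2 ha (e ▸ hi)) (fun e => hn1.2.2 ha (e ▸ hj))
            (fun e => hn1.2.2 ha (e ▸ hk))
        exact ⟨value_univ F L₁ h0, value_univ F L₂ (fun a ha => h0 a (e1 ▸ ha))⟩
      have same : word L₁ = word L₂ → word R₁ = word R₂ →
          ∃ i j k, [i, j, k].Sublist (word (.mul L₁ R₁)) ∧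
            ∀ F : α → Set (ι → S), (∀ a, a ≠ i → a ≠ j → a ≠ k → F a = Set.univ) →
              (value F (.mul L₁ R₁) = box (F i) (box (F j) (F k)) ∧
                value F (.mul L₂ R₂) = box (box (F i) (F j)) (F k)) ∨
              (value F (.mul L₁ R₁) = box (box (F i) (F j)) (F k) ∧
                value F (.mul L₂ R₂) = box (F i) (box (F j) (F k))) := by
        intro e1 e2
        by_cases hL : L₁ = L₂
        · have hR : R₁ ≠ R₂ := fun e => hne (by rw [hL, e])
          obtain ⟨i, j, k, hs, hF⟩ := ihR R₂ e2 hn1.2.1 hR
          refine ⟨i, j, k, hs.trans (List.sublist_append_right _ _), fun F h => ?_⟩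
          obtain ⟨u1, u2⟩ := key' F i j k (hs.subset (by simp)) (hs.subset (by simp))
            (hs.subset (by simp)) h e1 e2
          simp only [value, u1, u2, univ_box]
          exact hF F h
        · obtain ⟨i, j, k, hs, hF⟩ := ihL L₂ e1 hn1.1 hL
          refine ⟨i, j, k, hs.trans (List.sublist_append_left _ _), fun F h => ?_⟩
          obtain ⟨u1, u2⟩ := key F i j k (hs.subset (by simp)) (hs.subset (by simp))
            (hs.subset (by simp)) h e1 e2
          simp only [value, u1, u2, box_univ]
          exact hF F h
      rcases List.append_eq_append_iff.1 hw' with ⟨t, h1, h2⟩ | ⟨t, h1, h2⟩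
      · by_cases ht : t = []
        · subst ht
          exact same (by simpa using h1.symm) (by simpa using h2)
        · obtain ⟨i, j, k, hs, hF⟩ := split_triple (ι := ι) (S := S) L₁ R₁ L₂ R₂ t ht h1 h2 hn'
          exact ⟨i, j, k, hs, fun F h => Or.inl (hF F h)⟩
      · by_cases ht : t = []
        · subst ht
          exact same (by simpa using h1) (by simpa using h2.symm)
        · obtain ⟨i, j, k, hs, hF⟩ := split_triple (ι := ι) (S := S) L₂ R₂ L₁ R₁ t ht h1 h2
            (hw' ▸ hn')
          refine ⟨i, j, k, ?_, fun F h => Or.inr ⟨(hF F h).2, (hF F h).1⟩⟩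
          have : word (.mul L₁ R₁) = word L₂ ++ word R₂ := hw'
          rw [this]
          exact hs

end values

/-! ### The simultaneous product lies in every bracketing -/

section simultaneous

variable {α : Type w} {ι : Type u} {S : Type v}

theorem cyl_subset_value (A : α → Set (ι → S)) (K : α → Set ι) (x : ι → S)
    (hd : ∀ a b, a ≠ b → Disjoint (K a) (K b)) (hK : ∀ a, cyl x (K a) ⊆ A a)
    (T : FreeMagma α) (hn : (word T).Nodup) :
    cyl x {c | ∃ a ∈ word T, c ∈ K a} ⊆ value A T := by
  induction T using FreeMagma.rec with
  | of a =>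
    intro y hy
    exact hK a (fun i hi => hy i ⟨a, by simp [word], hi⟩)
  | mul L R hL hR =>
    have hn' : (word L ++ word R).Nodup := hn
    have hn1 := List.nodup_append'.1 hn'
    intro y hy
    refine ⟨{c | ∃ a ∈ word L, c ∈ K a}, {c | ∃ a ∈ word R, c ∈ K a}, ?_, ?_, ?_⟩
    · rw [Set.disjoint_left]
      rintro c ⟨a, ha, hca⟩ ⟨b, hb, hcb⟩
      have hab : a ≠ b := fun e => hn1.2.2 ha (e ▸ hb)
      exact Set.disjoint_left.1 (hd a b hab) hca hcb
    · intro z hz
      refine hL hn1.1 (fun i hi => ?_)
      rw [hz i hi]
      obtain ⟨a, ha, hia⟩ := hi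
      exact hy i ⟨a, by simp [word, ha], hia⟩
    · intro z hz
      refine hR hn1.2.1 (fun i hi => ?_)
      rw [hz i hi]
      obtain ⟨a, ha, hia⟩ := hi
      exact hy i ⟨a, by simp [word, ha], hia⟩

end simultaneous

/-! ### Products of examples -/

section products

variable {α : Type w} {S : Type v} {ι : Type u} {τ : Type u} {κ : Type u}

/-- The set of all points whose `t`-th block lies in `A t`, for every `t`. -/
def blocks (e : ι ≃ τ × κ) (A : τ → Set (κ → S)) : Set (ι → S) :=
  {f | ∀ t, (fun c => f (e.symm (t, c))) ∈ A t}

theorem box_blocks (e : ι ≃ τ × κ) (A B : τ → Set (κ → S)) :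
    box (blocks e A) (blocks e B) = blocks e (fun t => box (A t) (B t)) := by
  classical
  have main : ∀ (A : τ → Set (κ → S)) (f : ι → S) (K : Set ι),
      cyl f K ⊆ blocks e A → ∀ t,
        cyl (fun c => f (e.symm (t, c))) {c | e.symm (t, c) ∈ K} ⊆ A t := by
    intro A f K h t y hy
    have h1 : (fun i => if (e i).1 = t then y (e i).2 else f i) ∈ cyl f K := by
      intro i hi
      show (if (e i).1 = t then y (e i).2 else f i) = f i
      by_cases hti : (e i).1 = t
      · rw [if_pos hti]
        have h2 : e.symm (t, (e i).2) = i := by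
          rw [← hti]
          exact e.symm_apply_apply i
        have := hy (e i).2 (by rw [Set.mem_ofPred_eq, h2]; exact hi)
        rw [this]
        exact congrArg f h2
      · rw [if_neg hti]
    have h3 := h h1 t
    have h4 : (fun c => (fun i => if (e i).1 = t then y (e i).2 else f i) (e.symm (t, c))) = y := by
      funext c
      simp
    rw [h4] at h3
    exact h3
  ext f
  constructor
  · rintro ⟨K, L, hKL, hA, hB⟩ t
    refine ⟨{c | e.symm (t, c) ∈ K}, {c | e.symm (t, c) ∈ L}, ?_, main A f K hA t,
      main B f L hB t⟩
    rw [Set.disjoint_left]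
    intro c hc hc'
    exact Set.disjoint_left.1 hKL hc hc'
  · intro h
    choose K L hKL hA hB using h
    refine ⟨{i | (e i).2 ∈ K (e i).1}, {i | (e i).2 ∈ L (e i).1}, ?_, ?_, ?_⟩
    · rw [Set.disjoint_left]
      intro i hi hi'
      exact Set.disjoint_left.1 (hKL (e i).1) hi hi'
    · intro y hy t
      refine hA t (fun c hc => ?_)
      exact hy (e.symm (t, c)) (by simpa using hc)
    · intro y hy t
      refine hB t (fun c hc => ?_)
      exact hy (e.symm (t, c)) (by simpa using hc)

theorem value_blocks (e : ι ≃ τ × κ) (F : τ → α → Set (κ → S)) (T : FreeMagma α) :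
    value (fun a => blocks e (fun t => F t a)) T = blocks e (fun t => value (F t) T) := by
  induction T using FreeMagma.rec with
  | of a => rfl
  | mul L R hL hR => simp only [value, hL, hR, box_blocks]

theorem blocks_inj (e : ι ≃ τ × κ) (A B : τ → Set (κ → S)) (hA : ∀ t, (A t).Nonempty)
    (h : blocks e A = blocks e B) (t : τ) : A t ⊆ B t := by
  classical
  choose p hp using hA
  intro y hy
  have h1 : (fun i => if (e i).1 = t then y (e i).2 else p (e i).1 (e i).2) ∈ blocks e A := by
    intro t'
    by_cases ht : t' = t
    · subst ht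
      simpa using hy
    · simpa [ht] using hp t'
  rw [h] at h1
  simpa using h1 t

end products

/-! ### The basic example with three factors -/

section example3

variable {S : Type v}

/-- First factor: `x₀ = s`. -/
def exA (s : S) : Set (Fin 3 → S) := {x | x 0 = s}

/-- Second factor: `x₁ = s`, or `x₀ = x₂ = s`. -/
def exB (s : S) : Set (Fin 3 → S) := {x | x 1 = s ∨ (x 0 = s ∧ x 2 = s)}

/-- Third factor: `x₁ = s`, or `x₀ ≠ s`, or `x₂ ≠ s`. -/
def exC (s : S) : Set (Fin 3 → S) := {x | x 1 = s ∨ x 0 ≠ s ∨ x 2 ≠ s}

theorem mem_right (s : S) : (fun _ => s) ∈ box (exA s) (box (exB s) (exC s)) := by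
  refine ⟨{0}, {1}, by simp, ?_, ?_⟩
  · intro y hy
    exact hy 0 (by simp)
  · intro y hy
    have h1 : y 1 = s := hy 1 (by simp)
    by_cases h0 : y 0 = s
    · by_cases h2 : y 2 = s
      · refine ⟨{0, 2}, {1}, by simp, ?_, ?_⟩
        · intro z hz
          exact Or.inr ⟨(hz 0 (by simp)).trans h0, (hz 2 (by simp)).trans h2⟩
        · intro z hz
          exact Or.inl ((hz 1 (by simp)).trans h1)
      · refine ⟨{1}, {2}, by simp, ?_, ?_⟩
        · intro z hz
          exact Or.inl ((hz 1 (by simp)).trans h1)
        · intro z hz
          refine Or.inr (Or.inr ?_)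
          rw [hz 2 (by simp)]
          exact h2
    · refine ⟨{1}, {0}, by simp, ?_, ?_⟩
      · intro z hz
        exact Or.inl ((hz 1 (by simp)).trans h1)
      · intro z hz
        refine Or.inr (Or.inl ?_)
        rw [hz 0 (by simp)]
        exact h0

theorem not_mem_left {s s' : S} (hs : s' ≠ s) :
    (fun _ => s) ∉ box (box (exA s) (exB s)) (exC s) := by
  rintro ⟨K, L, hKL, hAB, hC⟩
  have h1 : (1 : Fin 3) ∈ L := by
    by_contra h1
    have h2 : (Function.update (fun _ => s) 1 s' : Fin 3 → S) ∈ cyl (fun _ => s) L := by
      intro i hi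
      have : i ≠ 1 := fun e => h1 (e ▸ hi)
      simp [Function.update, this]
    have h3 := hC h2
    simp [exC, hs] at h3
  have h2 : (1 : Fin 3) ∉ K := fun h => Set.disjoint_left.1 hKL h h1
  have h3 : (Function.update (fun _ => s) 1 s' : Fin 3 → S) ∈ cyl (fun _ => s) K := by
    intro i hi
    have : i ≠ 1 := fun e => h2 (e ▸ hi)
    simp [Function.update, this]
  obtain ⟨K', L', hKL', hA, hB⟩ := hAB h3
  have h4 : (0 : Fin 3) ∈ K' := by
    by_contra h4
    have h5 : (Function.update (Function.update (fun _ => s) 1 s') 0 s' : Fin 3 → S) ∈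
        cyl (Function.update (fun _ => s) 1 s') K' := by
      intro i hi
      have : i ≠ 0 := fun e => h4 (e ▸ hi)
      simp [Function.update, this]
    have h6 := hA h5
    simp [exA, hs] at h6
  have h5 : (0 : Fin 3) ∉ L' := fun h => Set.disjoint_left.1 hKL' h4 h
  have h6 : (Function.update (Function.update (fun _ => s) 1 s') 0 s' : Fin 3 → S) ∈
      cyl (Function.update (fun _ => s) 1 s') L' := by
    intro i hi
    have : i ≠ 0 := fun e => h5 (e ▸ hi)
    simp [Function.update, this]
  have h7 := hB h6
  simp [exB, hs] at h7

end example3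

/-! ### Counting the bracketings -/

section counting

variable {α : Type w}

/-- The shape of a bracketing, as a plane binary tree. -/
def shape : FreeMagma α → BinaryTree Unit
  | .of _ => .nil
  | .mul x y => .node () (shape x) (shape y)

theorem length_word (T : FreeMagma α) : (word T).length = (shape T).numNodes + 1 := by
  induction T using FreeMagma.rec with
  | of a => simp [word, shape]
  | mul L R hL hR =>
    simp only [word, shape, List.length_append, hL, hR, BinaryTree.numNodes]
    omega

theorem shape_inj (T₁ T₂ : FreeMagma α) (hs : shape T₁ = shape T₂) (hw : word T₁ = word T₂) :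
    T₁ = T₂ := by
  induction T₁ using FreeMagma.rec generalizing T₂ with
  | of a =>
    cases T₂ with
    | of b =>
      have : a = b := by simpa [word] using hw
      rw [this]
    | mul x y => simp [shape] at hs
  | mul L₁ R₁ ihL ihR =>
    cases T₂ with
    | of b => simp [shape] at hs
    | mul L₂ R₂ =>
      have hs' : shape L₁ = shape L₂ ∧ shape R₁ = shape R₂ := by simpa [shape] using hs
      have hw' : word L₁ ++ word R₁ = word L₂ ++ word R₂ := hw
      have hlen : (word L₁).length = (word L₂).length := by
        rw [length_word, length_word, hs'.1]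
      obtain ⟨h1, h2⟩ := List.append_inj hw' hlen
      rw [ihL L₂ hs'.1 h1, ihR R₂ hs'.2 h2]

theorem shape_surj (t : BinaryTree Unit) (l : List α) (hl : l.length = t.numNodes + 1) :
    ∃ T : FreeMagma α, word T = l ∧ shape T = t := by
  induction t generalizing l with
  | nil =>
    obtain ⟨a, rfl⟩ := List.length_eq_one_iff.1 (by simpa using hl)
    exact ⟨.of a, rfl, rfl⟩
  | node u x y hx hy =>
    simp only [BinaryTree.numNodes] at hl
    obtain ⟨L, hL1, hL2⟩ := hx (l.take (x.numNodes + 1)) (by
      rw [List.length_take]; omega)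
    obtain ⟨R, hR1, hR2⟩ := hy (l.drop (x.numNodes + 1)) (by
      rw [List.length_drop]; omega)
    refine ⟨.mul L R, ?_, ?_⟩
    · simp only [word, hL1, hR1, List.take_append_drop]
    · simp only [shape, hL2, hR2]

theorem ncard_bracketings (l : List α) (n : ℕ) (hl : l.length = n + 1) :
    {T : FreeMagma α | word T = l}.ncard = catalan n := by
  have h1 : shape '' {T : FreeMagma α | word T = l} = {t : BinaryTree Unit | t.numNodes = n} := by
    ext t
    constructor
    · rintro ⟨T, hT, rfl⟩
      have := length_word T
      rw [Set.mem_ofPred_eq] at hT ⊢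
      rw [hT, hl] at this
      omega
    · intro ht
      obtain ⟨T, h1, h2⟩ := shape_surj t l (by rw [hl, ht])
      exact ⟨T, h1, h2⟩
  have h2 : Set.InjOn shape {T : FreeMagma α | word T = l} := by
    intro T₁ h1 T₂ h2 h
    exact shape_inj T₁ T₂ h (by rw [h1, h2])
  rw [← h2.ncard_image, h1, ← BinaryTree.coe_treesOfNumNodesEq,
    Set.ncard_coe_finset, BinaryTree.treesOfNumNodesEq_card_eq_catalan]

end counting

/-! ### The main theorem -/

/-- For every set `S` with at least two elements and every `r ≥ 3` there are subsets
`A_1, …, A_r` of `S^d`, with `d = 3 * (r choose 3)`, for which the values of the bracketings of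
the word `A_1 A_2 ⋯ A_r` are pairwise distinct; their number is the Catalan number `C_{r-1}`. -/
theorem result (S : Type v) [Nontrivial S] (r : ℕ) (hr : 3 ≤ r) :
    ∃ A : Fin r → Set (Fin (3 * r.choose 3) → S),
      Set.InjOn (value A) {T : FreeMagma (Fin r) | word T = List.finRange r} ∧
      (value A '' {T : FreeMagma (Fin r) | word T = List.finRange r}).ncard =
        catalan (r - 1) := by
  classical
  obtain ⟨s, s', hs⟩ := exists_pair_ne S
  -- blocks are indexed by the three-element subsets of `Fin r`
  let τ := {u : Finset (Fin r) // u.card = 3}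
  have hcard : Fintype.card (τ × Fin 3) = 3 * r.choose 3 := by
    rw [Fintype.card_prod, Fintype.card_finset_len, Fintype.card_fin, Fintype.card_fin, mul_comm]
  let e : Fin (3 * r.choose 3) ≃ τ × Fin 3 := (Fintype.equivFinOfCardEq hcard).symm
  let em : τ → Fin 3 ↪o Fin r := fun u => u.1.orderEmbOfFin u.2
  let F : τ → Fin r → Set (Fin 3 → S) := fun u a =>
    if a = em u 0 then exA s else if a = em u 1 then exB s else if a = em u 2 then exC s
    else Set.univ
  -- every value of every block is nonempty
  have hne : ∀ (u : τ) (T : FreeMagma (Fin r)), (word T).Nodup → (value (F u) T).Nonempty := by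
    intro u T hT
    let x : Fin 3 → S := fun c => if c = 2 then s' else s
    let K : Fin r → Set (Fin 3) := fun a => {c | a = em u c}
    refine ⟨x, cyl_subset_value (F u) K x ?_ ?_ T hT (self_mem_cyl x _)⟩
    · intro a b hab
      rw [Set.disjoint_left]
      intro c hc hc'
      exact hab (hc.trans hc'.symm)
    · intro a y hy
      show y ∈ (if a = em u 0 then exA s else if a = em u 1 then exB s
        else if a = em u 2 then exC s else Set.univ)
      split_ifs with h0 h1 h2
      · exact hy 0 h0
      · exact Or.inl (hy 1 h1)
      · refine Or.inr (Or.inr ?_)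
        rw [hy 2 h2]
        simpa [x] using hs.symm
      · exact Set.mem_univ y
  have hinj : Set.InjOn (value (fun a => blocks e (fun t => F t a)))
      {T : FreeMagma (Fin r) | word T = List.finRange r} := by
    intro T₁ h1 T₂ h2 h
    rw [Set.mem_ofPred_eq] at h1 h2
    have hn1 : (word T₁).Nodup := h1 ▸ List.nodup_finRange r
    have hn2 : (word T₂).Nodup := h2 ▸ List.nodup_finRange r
    by_contra hT
    obtain ⟨i, j, k, hsub, hF⟩ := exists_triple (ι := Fin 3) (S := S) T₁ T₂ (h1.trans h2.symm)
      hn1 hT
    rw [h1] at hsub
    have hpair : ([i, j, k] : List (Fin r)).Pairwise (· < ·) :=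
      List.Pairwise.sublist hsub (List.pairwise_lt_finRange r)
    have hij : i < j := by
      have := List.pairwise_cons.1 hpair
      exact this.1 j (by simp)
    have hjk : j < k := by
      have := List.pairwise_cons.1 (List.pairwise_cons.1 hpair).2
      exact this.1 k (by simp)
    have hik : i < k := hij.trans hjk
    let u : τ := ⟨{i, j, k}, by
      rw [Finset.card_eq_three]
      exact ⟨i, j, k, hij.ne, hik.ne, hjk.ne, rfl⟩⟩
    have hem : (![i, j, k] : Fin 3 → Fin r) = em u := by
      apply Finset.orderEmbOfFin_unique
      · intro c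
        fin_cases c <;> simp [u]
      · intro a b hab
        fin_cases a <;> fin_cases b <;> simp_all
    have e0 : em u 0 = i := by rw [← hem]; rfl
    have e1 : em u 1 = j := by rw [← hem]; rfl
    have e2 : em u 2 = k := by rw [← hem]; rfl
    have Fi : F u i = exA s := by simp [F, e0]
    have Fj : F u j = exB s := by simp [F, e0, e1, hij.ne']
    have Fk : F u k = exC s := by simp [F, e0, e1, e2, hik.ne', hjk.ne']
    have hFu := hF (F u) (fun a hai haj hak => by simp [F, e0, e1, e2, hai, haj, hak])
    rw [Fi, Fj, Fk] at hFu
    have hdiff : box (exA s) (box (exB s) (exC s)) ≠ box (box (exA s) (exB s)) (exC s) := by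
      intro h
      exact not_mem_left (S := S) hs.symm (h ▸ mem_right s)
    rw [value_blocks, value_blocks] at h
    have h3 := blocks_inj e _ _ (fun t => hne t T₁ hn1) h u
    have h4 := blocks_inj e _ _ (fun t => hne t T₂ hn2) h.symm u
    have h5 : value (F u) T₁ = value (F u) T₂ := Set.Subset.antisymm h3 h4
    rcases hFu with ⟨h6, h7⟩ | ⟨h6, h7⟩
    · exact hdiff (by rw [← h6, ← h7, h5])
    · exact hdiff (by rw [← h6, ← h7, h5])
  refine ⟨fun a => blocks e (fun t => F t a), hinj, ?_⟩
  rw [hinj.ncard_image]
  exact ncard_bracketings (List.finRange r) (r - 1) (by rw [List.length_finRange]; omega)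

end Pool.Agent.Results.MP_890654_pr.DistinctBracketings
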